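import Mathlib

/-!
# Squad BOX (MP_be01ff_an): boxes, cubic damping. Definitions. Paper: note 4359.
-/

namespace Pool.Agent.BOX

open Set Filter Topology MeasureTheory

noncomputable section

/-! ## Absolutely summable families and their trilinear convolution -/

section conv

variable {Γ : Type} [AddCommGroup Γ] {B : Type} [NormedCommRing B]

/-- The trilinear convolution. -/
def T3 (F G H : Γ → B) (g : Γ) : B := ∑' h : Γ × Γ, F h.1 * G h.2 * H (g - h.1 - h.2)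

/-- Submultiplicative weights. -/
def Wt (w : Γ → ℝ) : Prop := (∀ g, 1 ≤ w g) ∧ ∀ g h, w (g + h) ≤ w g * w h

/-- Summability with a weight. -/
def Sm (w : Γ → ℝ) (F : Γ → B) : Prop := Summable fun g => ‖F g‖ * w g

/-- The weighted norm. -/
def nm (w : Γ → ℝ) (F : Γ → B) : ℝ := ∑' g, ‖F g‖ * w g

end conv

/-! ## Families indexed by `P × Q`: `P` = phases, `Q` = space frequencies -/

section pq

variable {P Q : Type} [AddCommGroup P] [AddCommGroup Q]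

/-- The coefficients of the real part (for each `k`) of `∑_p F (p, k) e^{i θ(p) t}`. -/
def Vp (F : P × Q → ℂ) (g : P × Q) : ℂ := (F g + (starRingEnd ℂ) (F (-g.1, g.2))) / 2

/-- The symbol `θ(p) - ω_k`. -/
def sg (θ : P →+ ℝ) (om : Q → ℝ) (g : P × Q) : ℝ := θ g.1 - om g.2

/-- The value at time `t` of the family `F`. -/
def ev (θ : P →+ ℝ) (F : P × Q → ℂ) (t : ℝ) (k : Q) : ℂ :=
  ∑' p : P, F (p, k) * Complex.exp (Complex.I * ((θ p * t : ℝ) : ℂ))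

/-- The coefficient of order `n` of the cube of the real part. -/
def Cub (W : ℕ → P × Q → ℂ) (n : ℕ) (g : P × Q) : ℂ :=
  ∑ a ∈ Finset.range (n + 1), ∑ b ∈ Finset.range (n + 1 - a),
    T3 (Vp (W a)) (Vp (W b)) (Vp (W (n - a - b))) g

/-- The equation of order `j` at the index `g`. -/
def Eqn (θ : P →+ ℝ) (om : Q → ℝ) (W : ℕ → P × Q → ℂ) (β : ℕ → ℝ) (j : ℕ) (g : P × Q) : Prop :=
  Complex.I * (sg θ om g : ℂ) * W j g =
    ∑ i ∈ Finset.Icc 1 j, ((β i * (2 * ((j : ℝ) - i) + 1) : ℝ) : ℂ) * W (j - i) g -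
    (if j = 0 then 0 else Cub W (j - 1) g)

/-- The data of a resonant profile: `R` is the resonant set, `W0` the profile, `Good` a class of
families in which all computations take place. -/
structure Frame (θ : P →+ ℝ) (om : Q → ℝ) (R : Set (P × Q)) (Good : (P × Q → ℂ) → Prop)
    (W0 : P × Q → ℂ) (ν : ℝ) : Prop where
  add : ∀ F G, Good F → Good G → Good (fun g => F g + G g)
  smul : ∀ (c : ℝ) F, Good F → Good (fun g => (c : ℂ) * F g)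
  t3 : ∀ F G H, Good F → Good G → Good H → Good (T3 (Vp F) (Vp G) (Vp H))
  div : ∀ F, Good F → Good (Rᶜ.indicator fun g => F g / (Complex.I * (sg θ om g : ℂ)))
  sum : ∀ F, Good F → Summable fun g => ‖F g‖
  nz : ∀ F, Good F → ∀ g ∉ R, sg θ om g = 0 → F g = 0
  zero : ∀ g ∈ R, sg θ om g = 0
  good0 : Good W0
  supp0 : ∀ g ∉ R, W0 g = 0
  pos : 0 < ν
  prof : ∀ g ∈ R, T3 (Vp W0) (Vp W0) (Vp W0) g = (ν : ℂ) * W0 g
  inv : ∀ μ : ℝ, 3 * ν ≤ μ → ∀ F, Good F → ∃ (Z : P × Q → ℂ) (β : ℝ), Good Z ∧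
    (∀ g ∉ R, Z g = 0) ∧ ∀ g ∈ R,
      (μ : ℂ) * Z g - 3 * T3 (Vp W0) (Vp W0) (Vp Z) g = F g - (β : ℂ) * W0 g

/-- The right hand side of the system `z_k' = i ω_k z_k - ((Re z)^3)_k`. -/
def rhs (om : Q → ℝ) (z : Q → ℂ) (k : Q) : ℂ :=
  Complex.I * (om k : ℂ) * z k -
    T3 (fun q => ((z q).re : ℂ)) (fun q => ((z q).re : ℂ)) (fun q => ((z q).re : ℂ)) k

/-- The approximate solution of order `K`. -/
def cur (θ : P →+ ℝ) (W : ℕ → P × Q → ℂ) (A : ℝ → ℝ) (K : ℕ) (k : Q) (t : ℝ) : ℂ :=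
  ∑ j ∈ Finset.range (K + 1), ((A t : ℝ) : ℂ) ^ (2 * j + 1) * ev θ (W j) t k

end pq

/-- The amplitude: `A' = - A ∑ β_i A^{2i}`, `t A² → 1/(2 β_1)`. -/
def Amp (β : ℕ → ℝ) (K : ℕ) (t1 : ℝ) (A : ℝ → ℝ) : Prop :=
  1 ≤ t1 ∧ (∀ t > t1, 0 < A t ∧ A t ≤ 1 ∧
    HasDerivAt A (-(A t * ∑ i ∈ Finset.Icc 1 K, β i * A t ^ (2 * i))) t) ∧
  Tendsto (fun t => t * A t ^ 2) atTop (𝓝 (1 / (2 * β 1)))

/-! ## The equation in a box -/

section box

variable {N : ℕ}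

/-- The box `∏ (0, l_i)`. -/
def Box (l : Fin N → ℝ) : Set (Fin N → ℝ) := {x | ∀ i, 0 < x i ∧ x i < l i}

/-- The eigenfrequencies of the box. -/
def frq (l : Fin N → ℝ) (k : Fin N → ℤ) : ℝ := Real.sqrt (∑ i, (Real.pi * k i / l i) ^ 2)

/-- The weight of order two. -/
def w2 (k : Fin N → ℤ) : ℝ := (1 + ∑ i, |(k i : ℝ)|) ^ 2

/-- The functions `c_k ∏ sin (π k_i x_i / l_i)`. -/
def Sn (l : Fin N → ℝ) (c : (Fin N → ℤ) → ℝ) (k : Fin N → ℤ) (x : Fin N → ℝ) : ℝ :=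
  c k * ∏ i, Real.sin (Real.pi * k i / l i * x i)

/-- The time derivative. -/
def dt (u : ℝ → (Fin N → ℝ) → ℝ) (t : ℝ) (x : Fin N → ℝ) : ℝ := deriv (fun s => u s x) t

/-- The second time derivative. -/
def dtt (u : ℝ → (Fin N → ℝ) → ℝ) (t : ℝ) (x : Fin N → ℝ) : ℝ := iteratedDeriv 2 (fun s => u s x) t

/-- The derivative `∂_i`. -/
def dx (i : Fin N) (f : (Fin N → ℝ) → ℝ) (x : Fin N → ℝ) : ℝ :=
  deriv (fun s : ℝ => f (x + s • Pi.single i (1 : ℝ))) 0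

/-- The second derivative `∂_i²`. -/
def dxx (i : Fin N) (f : (Fin N → ℝ) → ℝ) (x : Fin N → ℝ) : ℝ :=
  iteratedDeriv 2 (fun s : ℝ => f (x + s • Pi.single i (1 : ℝ))) 0

/-- Classical solutions of `u_tt - Δu + a |u_t|^2 u_t = 0` in the box, `u = 0` on the boundary. -/
structure ClSol (l : Fin N → ℝ) (a : ℝ) (u : ℝ → (Fin N → ℝ) → ℝ) : Prop where
  smooth : ∃ ε > 0, ContDiffOn ℝ 2 (fun q : ℝ × (Fin N → ℝ) => u q.1 q.2) {q | -ε < q.1}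
  eq : ∀ t, 0 ≤ t → ∀ x ∈ Box l,
    dtt u t x - ∑ i, dxx i (u t) x + a * |dt u t x| ^ (2 : ℝ) * dt u t x = 0
  bdy : ∀ t, 0 ≤ t → ∀ x ∈ frontier (Box l), u t x = 0

/-- The energy. -/
def eng (l : Fin N → ℝ) (u : ℝ → (Fin N → ℝ) → ℝ) (t : ℝ) : ℝ :=
  ∫ x in Box l, (dt u t x ^ 2 + ∑ i, dx i (u t) x ^ 2)

/-- There is a classical solution with `E(t) ∼ (1+t)^(-1)`. -/
def Rate (l : Fin N → ℝ) (a : ℝ) : Prop :=
  ∃ u : ℝ → (Fin N → ℝ) → ℝ, ClSol l a u ∧ ∃ c C : ℝ, 0 < c ∧ ∀ t, 0 ≤ t →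
    c * (1 + t) ^ (-1 : ℝ) ≤ eng l u t ∧ eng l u t ≤ C * (1 + t) ^ (-1 : ℝ)

end box

end

end Pool.Agent.BOX
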