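import Pool.Agent.BOX.StmtsG

/-!
# Squad BOX (MP_be01ff_an): definitions for the cases `N = 2` (two classes) and `N ≥ 3`
-/

namespace Pool.Agent.BOX

open Set Filter Topology MeasureTheory

noncomputable section

/-- Change of the sign of the coordinate `i`. -/
def flp {N : ℕ} (i : Fin N) : (Fin N → ℤ) ≃+ (Fin N → ℤ) where
  toFun k := fun j => if j = i then - k j else k j
  invFun k := fun j => if j = i then - k j else k j
  left_inv k := by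
    funext j
    by_cases h : j = i <;> simp [h]
  right_inv k := by
    funext j
    by_cases h : j = i <;> simp [h]
  map_add' k m := by
    funext j
    by_cases h : j = i
    · simp [h]
      ring
    · simp [h]

/-- `f` is zero at the even integers. -/
def Oddf (f : ℤ → ℂ) : Prop := ∀ n, ¬ Odd n → f n = 0

/-- The values at the positive integers. -/
def pos (f : ℤ → ℂ) (n : ℤ) : ℂ := if 0 < n then f n else 0

/-- The family on `ℤ` of the real part: `z n` for `n > 0`, `conj (z (-n))` for `n < 0`. -/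
def hat (z : ℤ → ℂ) (n : ℤ) : ℂ := if 0 < n then z n else if n < 0 then (starRingEnd ℂ) (z (-n)) else 0

/-- The pairing `∑ f_q g_{-q}`. -/
def pr (f g : ℤ → ℂ) : ℂ := ∑' q, f q * g (-q)

/-- Exponential decay of a family on `ℤ`. -/
def Exd (f : ℤ → ℂ) : Prop := ∃ r > 1, Summable fun n => ‖f n‖ * (r : ℝ) ^ n.natAbs

/-- The resonant trilinear map with the constants `A1, A2` (for `N` dimensions `A1 = 2^N - 1`,
`A2 = 3^N - 2^(N+1) + 1`). -/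
def K1 (A1 A2 : ℝ) (f g h : ℤ → ℂ) (n : ℤ) : ℂ :=
  T3 f g h n + A1 * (h n * pr f g + g n * pr f h + f n * pr g h) +
  A2 * (f n * g (-n) * h n + f n * g n * h (-n) + f (-n) * g n * h n)

/-- The interaction of the two classes in the case `N = 2`. -/
def X1 (f1 f2 g1 g2 h1 h2 : ℤ → ℂ) (n : ℤ) : ℂ :=
  4 * (f1 n * pr g2 h2 + g1 n * pr f2 h2 + h1 n * pr f2 g2) +
  2 * (f1 n * (g2 n * h2 (-n) + g2 (-n) * h2 n) + g1 n * (f2 n * h2 (-n) + f2 (-n) * h2 n) +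
    h1 n * (f2 n * g2 (-n) + f2 (-n) * g2 n))

/-! ## `N = 2` -/

section two

/-- Index of the families for `N = 2`. -/
abbrev G2 := (ℤ × ℤ) × (Fin 2 → ℤ)

/-- The size of an index. -/
def nr2 (g : G2) : ℕ := g.1.1.natAbs + g.1.2.natAbs + (g.2 0).natAbs + (g.2 1).natAbs

/-- The class functions: frequency `(n, 0)` with `k = (±n, ±n)`, frequency `(0, n)` with
`k = (±n, ±2n)`. -/
def cl2 (f1 f2 : ℤ → ℂ) (g : G2) : ℂ :=
  (if g.1.2 = 0 ∧ Odd g.1.1 ∧ |g.2 0| = |g.1.1| ∧ |g.2 1| = |g.1.1| then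
    ((Int.sign (g.2 0 * g.2 1) : ℤ) : ℂ) * f1 g.1.1 else 0) +
  if g.1.1 = 0 ∧ Odd g.1.2 ∧ |g.2 0| = |g.1.2| ∧ |g.2 1| = 2 * |g.1.2| then
    ((Int.sign (g.2 0 * g.2 1) : ℤ) : ℂ) * f2 g.1.2 else 0

/-- The resonant set. -/
def R2 : Set G2 := {g | (g.1.2 = 0 ∧ 0 < g.1.1 ∧ Odd g.1.1 ∧ |g.2 0| = g.1.1 ∧ |g.2 1| = g.1.1) ∨
  (g.1.1 = 0 ∧ 0 < g.1.2 ∧ Odd g.1.2 ∧ |g.2 0| = g.1.2 ∧ |g.2 1| = 2 * g.1.2)}

/-- The parity conditions. -/
def Par2 (g : G2) : Prop := Odd (g.1.1 + g.1.2) ∧ Odd (g.2 0) ∧ Even (g.2 1 - g.1.1)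

/-- The class of families. -/
def Good2 (F : G2 → ℂ) : Prop := (∃ r > 1, Summable fun g => ‖F g‖ * (r : ℝ) ^ nr2 g) ∧
  (∀ p k, ∀ i : Fin 2, F (p, flp i k) = - F (p, k)) ∧ ∀ g, F g ≠ 0 → Par2 g

/-- The two frequencies. -/
def th2 (l : Fin 2 → ℝ) : (ℤ × ℤ) →+ ℝ where
  toFun p := p.1 * frq l ![1, 1] + p.2 * frq l ![1, 2]
  map_zero' := by simp
  map_add' p q := by
    simp only [Prod.fst_add, Prod.snd_add, Int.cast_add]
    ring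

/-- The Diophantine condition of order two for `s`. -/
def Dio2 (s : ℝ) : Prop := ∃ c > 0, ∃ τ : ℕ, ∀ m0 m1 m2 : ℤ, ¬(m0 = 0 ∧ m1 = 0 ∧ m2 = 0) →
  c / (1 + |(m0 : ℝ)| + |(m1 : ℝ)| + |(m2 : ℝ)|) ^ τ ≤ |m0 + m1 * s + m2 * s ^ 2|

/-- A profile for `N = 2`. -/
structure Prf2 (w : ℤ → ℝ) (ν r : ℝ) : Prop where
  r1 : 1 < r
  ν1 : 62 ≤ ν
  even : ∀ n, w (-n) = w n
  odd : ∀ n, ¬ Odd n → w n = 0
  one : w 1 = 1
  sum : Summable fun n => |w n| * r ^ n.natAbs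
  small : ∑' n : ℤ, |w n| * r ^ n.natAbs ≤ 2 * r + 1 / 4
  eq : ∀ n, Odd n → T3 w w w n + 21 * (∑' q, w q ^ 2) * w n + 18 * w n ^ 3 = ν * w n

end two

/-! ## `N ≥ 3` -/

section many

variable {N : ℕ}

/-- Index of the families for `N ≥ 3`. -/
abbrev G3 (N : ℕ) := ℤ × (Fin N → ℤ)

/-- The size of an index. -/
def nr3 (g : G3 N) : ℕ := g.1.natAbs + ∑ i, (g.2 i).natAbs

/-- The class functions: frequency `n` with `k_i = ±n` for all `i`. -/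
def cl3 (f : ℤ → ℂ) (g : G3 N) : ℂ := if Odd g.1 ∧ ∀ i, |g.2 i| = |g.1| then f g.1 else 0

/-- The resonant set. -/
def R3 : Set (G3 N) := {g | 0 < g.1 ∧ Odd g.1 ∧ ∀ i, |g.2 i| = g.1}

/-- The class of families. -/
def Good3 (F : G3 N → ℂ) : Prop := (∃ r > 1, Summable fun g => ‖F g‖ * (r : ℝ) ^ nr3 g) ∧
  (∀ p k, ∀ i : Fin N, F (p, flp i k) = F (p, k)) ∧ ∀ g, F g ≠ 0 → Odd g.1 ∧ ∀ i, Odd (g.2 i)

/-- The frequency. -/
def th3 (l : Fin N → ℝ) : ℤ →+ ℝ where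
  toFun p := p * frq l (fun _ => 1)
  map_zero' := by simp
  map_add' p q := by
    rw [Int.cast_add]
    ring

/-- The Diophantine condition for `(1/l_i²)`. -/
def DioN (l : Fin N → ℝ) : Prop := ∃ c > 0, ∃ τ : ℕ, ∀ m : Fin N → ℤ, m ≠ 0 →
  c / (1 + ∑ i, |(m i : ℝ)|) ^ τ ≤ |∑ i, (m i : ℝ) / l i ^ 2|

/-- The constant `c_N = 3 (3^N - 2^(N+1) + 1)`. -/
def cN (N : ℕ) : ℝ := 3 * (3 ^ N - 2 ^ (N + 1) + 1)

/-- A profile for `N ≥ 3`. -/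
structure Prf3 (N : ℕ) (w : ℤ → ℝ) (ν r : ℝ) : Prop where
  r1 : 1 < r
  ν1 : cN N + 2 + 6 * (2 ^ N - 1) ≤ ν
  even : ∀ n, w (-n) = w n
  odd : ∀ n, ¬ Odd n → w n = 0
  one : w 1 = 1
  sum : Summable fun n => |w n| * r ^ n.natAbs
  small : ∑' n : ℤ, |w n| * r ^ n.natAbs ≤ 2 * r + 1 / 4
  eq : ∀ n, Odd n → T3 w w w n + 3 * (2 ^ N - 1) * (∑' q, w q ^ 2) * w n +
    cN N * w n ^ 3 = ν * w n

/-- The signs `χ(k) = ∏ sin (π k_i / 2)` (for odd `k_i`). -/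
def chi (k : Fin N → ℤ) : ℝ := ∏ i, Real.sin (Real.pi * k i / 2)

end many

end

end Pool.Agent.BOX
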