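import Pool.Agent.BOX.Defs

/-!
# Squad BOX (MP_be01ff_an): general part. Statements with complete proofs. Paper: note 4359.

Conventions: file `Pool/Agent/HelperNN_BOX/XXX.lean`, namespace `Pool.Agent.BOX.HNN`, theorem =
row in lower case, hypotheses = the rows in the column uses, in that order, for example
`theorem rsa (evd : EvdStmt) (evt : EvtStmt) (evr : EvrStmt) : RsaStmt`.
-/

namespace Pool.Agent.BOX

open Set Filter Topology MeasureTheory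

noncomputable section

/-! ## Convolutions -/

/-- T3A: the trilinear convolution is bounded. Proof: for fixed `g` the family is dominated by
`‖F h.1‖ * ‖G h.2‖ * C`, `C` a bound of `‖H‖` (a summable family is bounded, and `w ≥ 1`). The
family `(g, h) ↦ ‖F h.1‖ w(h.1) ‖G h.2‖ w(h.2) ‖H (g-h.1-h.2)‖ w(g-h.1-h.2)` on `Γ × (Γ × Γ)` is
summable with sum the product of the three norms (change of variable `(h, g) ↦ (h, g-h.1-h.2)`,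
an equivalence of `Γ × Γ × Γ`, `Summable.mul_of_nonneg`, `tsum_mul_tsum_of_summable_norm`), and
`w g ≤ w(h.1) w(h.2) w(g-h.1-h.2)`. Then `norm_tsum_le_tsum_norm` for each `g`. -/
def T3aStmt : Prop := ∀ (Γ B : Type) [AddCommGroup Γ] [NormedCommRing B] [CompleteSpace B]
  (w : Γ → ℝ) (F G H : Γ → B), Wt w → Sm w F → Sm w G → Sm w H →
  (∀ g, Summable fun h : Γ × Γ => ‖F h.1‖ * ‖G h.2‖ * ‖H (g - h.1 - h.2)‖) ∧
  Sm w (T3 F G H) ∧ nm w (T3 F G H) ≤ nm w F * nm w G * nm w H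

/-- T3S: linearity and symmetry. Proof: `tsum_add`, `tsum_mul_left`; symmetry by the equivalences
`(a, b) ↦ (b, a)` and `(a, b) ↦ (a, g - a - b)` of `Γ × Γ`; the last point by the equivalence
`(a, b) ↦ (e a, e b)`. Summability of the families as in T3A with the weight `1`. -/
def T3sStmt : Prop := ∀ (Γ B : Type) [AddCommGroup Γ] [NormedCommRing B] [CompleteSpace B]
  (F F' G H : Γ → B), (Summable fun g => ‖F g‖) → (Summable fun g => ‖F' g‖) →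
  (Summable fun g => ‖G g‖) → (Summable fun g => ‖H g‖) → ∀ g,
  T3 (fun x => F x + F' x) G H g = T3 F G H g + T3 F' G H g ∧
  T3 F G H g = T3 G F H g ∧ T3 F G H g = T3 F H G g ∧
  (∀ c : B, T3 (fun x => c * F x) G H g = c * T3 F G H g) ∧
  ∀ e : Γ ≃+ Γ, T3 (fun x => F (e x)) (fun x => G (e x)) (fun x => H (e x)) g = T3 F G H (e g)

/-- EVM: evaluation at a multiplicative function. Proof: the family
`(a, b, c) ↦ F a G b H c χ(a) χ(b) χ(c)` on `Γ × Γ × Γ` is summable, its sum is the product; by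
the change of variable `g = a + b + c` it is `∑_g χ(g) T3 F G H g`. -/
def EvmStmt : Prop := ∀ (Γ : Type) [AddCommGroup Γ] (χ F G H : Γ → ℂ),
  (∀ g h, χ (g + h) = χ g * χ h) → (∀ g, ‖χ g‖ ≤ 1) → (Summable fun g => ‖F g‖) →
  (Summable fun g => ‖G g‖) → (Summable fun g => ‖H g‖) →
  (∑' g, F g * χ g) * (∑' g, G g * χ g) * (∑' g, H g * χ g) = ∑' g, T3 F G H g * χ g

/-- EVT: evaluation of the phases. Proof: as EVM: both sides are the sum over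
`(p₁, a), (p₂, b), (p₃, k-a-b)` of `F G H e^{i θ(p₁+p₂+p₃) t}`; absolute convergence by T3A for
`P × Q` (weight `1`). -/
def EvtStmt : Prop := ∀ (P Q : Type) [AddCommGroup P] [AddCommGroup Q] (θ : P →+ ℝ)
  (F G H : P × Q → ℂ), (Summable fun g => ‖F g‖) → (Summable fun g => ‖G g‖) →
  (Summable fun g => ‖H g‖) → ∀ (t : ℝ) (k : Q),
  T3 (ev θ F t) (ev θ G t) (ev θ H t) k = ev θ (T3 F G H) t k

/-- EVD: bounds and derivative of `ev`. Proof: `Summable.prod_factor`/`Summable.prod` for the first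
two points, `‖e^{i s}‖ = 1`; derivative: `hasDerivAt_tsum` with the bound `|θ p| ‖F (p, k)‖`;
continuity: `continuous_tsum`. -/
def EvdStmt : Prop := ∀ (P Q : Type) [AddCommGroup P] [AddCommGroup Q] (θ : P →+ ℝ)
  (w : Q → ℝ) (F : P × Q → ℂ), (∀ k, 1 ≤ w k) → Sm (fun g => (1 + |θ g.1|) * w g.2) F →
  (∀ k, Summable fun p => ‖F (p, k)‖) ∧ (Summable fun k => (∑' p, ‖F (p, k)‖) * w k) ∧
  (∑' k, (∑' p, ‖F (p, k)‖) * w k = ∑' g, ‖F g‖ * w g.2) ∧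
  (∀ t k, ‖ev θ F t k‖ ≤ ∑' p, ‖F (p, k)‖) ∧
  (∀ k, Continuous fun t => ev θ F t k) ∧
  (∀ k, Continuous fun t => ev θ (fun g => Complex.I * (θ g.1 : ℂ) * F g) t k) ∧
  ∀ k t, HasDerivAt (fun s => ev θ F s k) (ev θ (fun g => Complex.I * (θ g.1 : ℂ) * F g) t k) t

/-- EVR: the real part. Proof: `conj (∑ F e^{iθ(p)t}) = ∑ conj F (p) e^{-iθ(p)t}`, replace `p` by
`-p`. -/
def EvrStmt : Prop := ∀ (P Q : Type) [AddCommGroup P] [AddCommGroup Q] (θ : P →+ ℝ)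
  (F : P × Q → ℂ), (Summable fun g => ‖F g‖) → (Summable fun g => ‖Vp F g‖) ∧
  ∀ (t : ℝ) (k : Q), ev θ (Vp F) t k = ((ev θ F t k).re : ℂ)

/-! ## The expansion -/

/-- REC: the approximate solutions of all orders. Proof by induction on `K`. `K = 0`: `W j = W0`
for all `j`, `β i = ν` for all `i` (`Eqn 0` holds by `zero` and `supp0`). From `K` to `K + 1`:
by `inv` with `μ = (2K + 1) ν` (if `K ≥ 1`; then `μ ≥ 3ν`) there are `Z` and `β'` with, on `R`,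
`μ Z - 3 T3 V0 V0 (Vp Z) = - [ν (2K+1) W_K + ∑_{2 ≤ i ≤ K} β_i (2(K+1-i)+1) W_{K+1-i} - Cub W K]
  - β' W0`; the right hand side is `Good`.
Put `W'_K = W_K + Z`, `β_{K+1} = β'`, `W'_j = W_j` for `j < K`; for `K = 0` put `Z = 0`, keep
`β_1 = ν` and use `prof`. Since `Z = 0` off `R` and `sg = 0` on `R` the equations of order `≤ K`
are not changed (their right hand sides contain `W_j`, `j < K`, only, and the left hand sides are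
`0` on `R`). Since `Cub W' K = Cub W K + 3 T3 V0 V0 (Vp Z)` for `K ≥ 1` (T3S: `W_K` occurs in
`Cub W K` only with the indices `(0,0,K), (0,K,0), (K,0,0)`; `Vp` is additive) the right hand side
of the equation of order `K + 1` is `0` on `R`. Off `R` define
`W'_{K+1} = Rᶜ.indicator (right hand side / (i sg))`; if `sg = 0` off `R` then the right hand side
is `0` by `nz`. All families are `Good` (add, smul, t3, div). -/
def RecStmt : Prop := ∀ (P Q : Type) [AddCommGroup P] [AddCommGroup Q] (θ : P →+ ℝ)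
  (om : Q → ℝ) (R : Set (P × Q)) (Good : (P × Q → ℂ) → Prop) (W0 : P × Q → ℂ) (ν : ℝ),
  Frame θ om R Good W0 ν → ∀ K : ℕ, ∃ (W : ℕ → P × Q → ℂ) (β : ℕ → ℝ), W 0 = W0 ∧ β 1 = ν ∧
    (∀ j ≤ K, Good (W j)) ∧ ∀ j ≤ K, ∀ g, Eqn θ om W β j g

/-- AMP: the amplitude. Proof: this is a scalar equation; `Pool.Agent.BE01.TrjStmt` (proved in the
squad BE01, find it with grep) with `α = 2`, `a = - ∑ β_i X^i`, `b = 0` gives `δ` with
`δ' = 2 δ a(δ)`, `0 < δ ≤ 1`, `t δ → 1/(2 β_1)`; put `A = sqrt δ`. -/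
def AmpStmt : Prop := ∀ (K : ℕ) (β : ℕ → ℝ), 1 ≤ K → 0 < β 1 → ∃ (t1 : ℝ) (A : ℝ → ℝ),
  Amp β K t1 A

/-- The remainder of the approximate solution. -/
def rem {P Q : Type} [AddCommGroup P] [AddCommGroup Q] (θ : P →+ ℝ) (W : ℕ → P × Q → ℂ)
    (β : ℕ → ℝ) (A : ℝ → ℝ) (K : ℕ) (k : Q) (t : ℝ) : ℂ :=
  (∑ a ∈ Finset.range (K + 1), ∑ b ∈ Finset.range (K + 1), ∑ c ∈ Finset.range (K + 1),
    if K ≤ a + b + c then ((A t ^ (2 * (a + b + c) + 3) : ℝ) : ℂ) *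
      ev θ (T3 (Vp (W a)) (Vp (W b)) (Vp (W c))) t k else 0) -
  ∑ j ∈ Finset.range (K + 1), ∑ i ∈ Finset.Icc 1 K,
    if K < i + j then ((β i * (2 * j + 1) * A t ^ (2 * (i + j) + 1) : ℝ) : ℂ) * ev θ (W j) t k
    else 0

/-- RSA: the equation of the approximate solution. Proof: by EVD and `Amp`,
`cur' = ∑_j A^{2j+1} ev(iθ W_j) - ∑_j ∑_i β_i (2j+1) A^{2(i+j)+1} ev(W_j)`; by EVR, T3S, EVT the
cube is `∑_{a,b,c ≤ K} A^{2(a+b+c)+3} ev(T3 V_a V_b V_c)`. So `cur' - rhs = ∑_j A^{2j+1} ev(i sg W_j)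
- ∑ β_i (2j+1) A^{2(i+j)+1} ev W_j + ∑ A^{2(a+b+c)+3} ev T3`, and by `Eqn`,
`ev(i sg W_j) = ∑_{i=1}^j β_i (2(j-i)+1) ev W_{j-i} - ev (Cub W (j-1))`: the terms with
`i + j ≤ K` and `a + b + c < K` cancel. (`ev` is additive on summable families; `Vp (W j)` and the
T3 are summable by EVR and T3A.) -/
def RsaStmt : Prop := ∀ (P Q : Type) [AddCommGroup P] [AddCommGroup Q] (θ : P →+ ℝ)
  (om w : Q → ℝ) (K : ℕ) (W : ℕ → P × Q → ℂ) (β : ℕ → ℝ) (A : ℝ → ℝ) (t1 : ℝ), Wt w → 1 ≤ K →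
  (∀ j ≤ K, Sm (fun g => (1 + |θ g.1|) * w g.2) (W j)) → (∀ j ≤ K, ∀ g, Eqn θ om W β j g) →
  Amp β K t1 A → ∀ k, ∀ t > t1,
    HasDerivAt (cur θ W A K k) (rhs om (fun q => cur θ W A K q t) k + rem θ W β A K k t) t

/-- RSB: the bounds for the approximate solution. Proof: `ev` is bounded by EVD; `A ≤ 1`,
`A² ≤ C/t` and `A sqrt t → sqrt (1/(2β_1))` by `Amp`. `b k = s ∑_p ‖W_0(p,k)‖ + C t2^{-1}
∑_{1≤j≤K} ∑_p ‖W_j(p,k)‖`, `s = sup_{t > t2} A sqrt t`, `t2` large (so that the sum of `b k w k` is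
at most `sqrt (1/(2β_1)) ‖W_0‖ + 1`). All terms of `rem` contain `A^m`, `m ≥ 2K+3`. The weight
`(p, k) ↦ w k` is submultiplicative (T3A for the cubes, `‖Vp F‖`-sums at most the sums of `F`). -/
def RsbStmt : Prop := ∀ (P Q : Type) [AddCommGroup P] [AddCommGroup Q] (θ : P →+ ℝ)
  (w : Q → ℝ) (K : ℕ) (W : ℕ → P × Q → ℂ) (β : ℕ → ℝ) (A : ℝ → ℝ) (t1 : ℝ), Wt w → 1 ≤ K →
  (∀ j ≤ K, Sm (fun g => (1 + |θ g.1|) * w g.2) (W j)) → 0 < β 1 → Amp β K t1 A →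
  ∃ (t2 : ℝ) (b c : Q → ℝ) (C : ℝ), t1 ≤ t2 ∧ (Summable fun k => b k * w k) ∧
    (Summable fun k => c k * w k) ∧
    (∑' k, b k * w k ≤ Real.sqrt (1 / (2 * β 1)) * (∑' g, ‖W 0 g‖ * w g.2) + 1) ∧
    (∀ k, ∀ t > t2, ‖cur θ W A K k t‖ ≤ b k * t ^ (-(1 / 2) : ℝ)) ∧
    (∀ k, ∀ t > t2, ‖rem θ W β A K k t‖ ≤ c k * t ^ (-((K : ℝ) + 3 / 2))) ∧
    (∀ k, ContinuousOn (rem θ W β A K k) (Ioi t2)) ∧
    ∀ k, ∀ t > t2, ‖cur θ W A K k t - (A t : ℂ) * ev θ (W 0) t k‖ ≤ C * t ^ (-(3 / 2) : ℝ)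

/-! ## The final state problem -/

/-- IOP: the integral operator. Proof: `‖V t‖ ≤ ∫_t^∞ c s^(-(M+1)) ds = c/M t^(-M)`; write
`V t = e^{iωt} ∫_{Ioi t} e^{-iωs} f s ds` and differentiate (`integral_Ioi` minus an interval
integral from a fixed point `t₀ > T`, fundamental theorem of calculus at `t`). -/
def IopStmt : Prop := ∀ (ω T M c : ℝ) (f : ℝ → ℂ), 0 < T → 0 < M → ContinuousOn f (Ioi T) →
  (∀ t > T, ‖f t‖ ≤ c * t ^ (-(M + 1))) → ∀ t > T,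
  ‖∫ s in Ioi t, Complex.exp (Complex.I * ((ω * (t - s) : ℝ) : ℂ)) * f s‖ ≤ c / M * t ^ (-M) ∧
  HasDerivAt (fun t => ∫ s in Ioi t, Complex.exp (Complex.I * ((ω * (t - s) : ℝ) : ℂ)) * f s)
    (Complex.I * ω * (∫ s in Ioi t, Complex.exp (Complex.I * ((ω * (t - s) : ℝ) : ℂ)) * f s) - f t) t

/-- FIX: the final state problem. Proof: `T ≥ t1` large with `(∑ c w)/(T M) ≤ 1/4`. Look for
`z = W + V`, `V_k(t) = ∫_t^∞ e^{iω_k(t-s)} [ (T3(Re(W+V)) - T3(Re W))_k(s) + r_k(s) ] ds` (so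
`V' = iωV - [..] - r`, IOP). `X` = families `Y : Q → C_b(Ioi T, ℂ)` with `∑ ‖Y_k‖ w_k < ∞`,
`V_k = t^(-M) Y_k`; ball `∑ ‖Y_k‖ w_k ≤ 1`. With `B = ∑ b w` (T3A for the Banach algebra
`C_b(Ioi T, ℂ)`, or majorants): `∑_k w_k sup t^(M+1) |[..]_k| ≤ 3 (B+1)² ∑ ‖Y_k‖ w_k`, Lipschitz
with the same constant, the factor `1/M` of IOP gives `3(B+1)²/M ≤ 1/4`: contraction of the ball.
Continuity in `t` of the T3 terms: uniformly convergent sums. Last point: if `e, s` is a symmetry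
of `om` and `W` then `r_{e k} = s_k r_k` (from the equation of `W`, uniqueness of the derivative)
and `V'_k = s_k V_{e k}` is another fixed point in the ball (`T3 (F) (e k) = s_k T3 F k`), so
`V' = V`. (Instead of a Banach space one may iterate `V^0 = 0`, `V^{n+1} = Φ(V^n)` with majorants
`|V^{n+1}_k - V^n_k| ≤ e^n_k t^(-M)`, `∑_k e^n_k w_k ≤ 4^(-n)`; the symmetry then passes to every
`V^n` and to the limit.) -/
def FixStmt : Prop := ∀ (Q : Type) [AddCommGroup Q] (w om : Q → ℝ) (W r : Q → ℝ → ℂ)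
  (b c : Q → ℝ) (t1 M : ℝ), Wt w → 1 ≤ t1 → (Summable fun k => b k * w k) →
  (Summable fun k => c k * w k) → 12 * ((∑' k, b k * w k) + 1) ^ 2 < M →
  (∀ k, ∀ t > t1, ‖W k t‖ ≤ b k * t ^ (-(1 / 2) : ℝ)) →
  (∀ k, ∀ t > t1, ‖r k t‖ ≤ c k * t ^ (-(M + 2))) → (∀ k, ContinuousOn (r k) (Ioi t1)) →
  (∀ k, ∀ t > t1, HasDerivAt (W k) (rhs om (fun q => W q t) k + r k t) t) →
  ∃ (T : ℝ) (z : Q → ℝ → ℂ) (d : Q → ℝ), t1 ≤ T ∧ (Summable fun k => d k * w k) ∧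
    (∀ k, ∀ t > T, ‖z k t - W k t‖ ≤ d k * t ^ (-M)) ∧
    (∀ k, ∀ t > T, HasDerivAt (z k) (rhs om (fun q => z q t) k) t) ∧
    ∀ (e : Q ≃+ Q) (s : Q → ℝ), (∀ k, s k ^ 2 = 1) → (∀ x y v, s (x + y + v) = s x * s y * s v) →
      (∀ k, om (e k) = om k) → (∀ k, ∀ t > t1, W (e k) t = (s k : ℂ) * W k t) →
      ∀ k, ∀ t > T, z (e k) t = (s k : ℂ) * z k t

/-- SEQ: the solution of the system. Proof: `M0 = 12 (sqrt(1/(2ν)) ‖W0‖ + 3)²`, `K ≥ 2` with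
`K - 1/2 > M0`, `M = K - 1/2`; REC, AMP, RSA, RSB, FIX. Bounds:
`‖z‖ ≤ ‖cur‖ + d t^(-M) ≤ (b + d) t^(-1/2)`. Symmetry: `cur θ W A K (e k) t = s_k cur ...` because
all `W j` are `Good`. -/
def SeqStmt : Prop := ∀ (P Q : Type) [AddCommGroup P] [AddCommGroup Q] (θ : P →+ ℝ)
  (om w : Q → ℝ) (R : Set (P × Q)) (Good : (P × Q → ℂ) → Prop) (W0 : P × Q → ℂ) (ν : ℝ),
  Frame θ om R Good W0 ν → Wt w → (∀ F, Good F → Sm (fun g => (1 + |θ g.1|) * w g.2) F) →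
  ∃ (T : ℝ) (z : Q → ℝ → ℂ) (d : Q → ℝ) (A : ℝ → ℝ) (C : ℝ), 1 ≤ T ∧
    (Summable fun k => d k * w k) ∧ (∀ k, ∀ t > T, ‖z k t‖ ≤ d k * t ^ (-(1 / 2) : ℝ)) ∧
    (∀ k, ∀ t > T, HasDerivAt (z k) (rhs om (fun q => z q t) k) t) ∧
    (∀ t > T, 0 < A t) ∧ Tendsto (fun t => t * A t ^ 2) atTop (𝓝 (1 / (2 * ν))) ∧
    (∀ k, ∀ t > T, ‖z k t - (A t : ℂ) * ev θ W0 t k‖ ≤ C * t ^ (-(3 / 2) : ℝ)) ∧
    ∀ (e : Q ≃+ Q) (s : Q → ℝ), (∀ k, s k ^ 2 = 1) → (∀ x y v, s (x + y + v) = s x * s y * s v) →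
      (∀ k, om (e k) = om k) → (∀ F, Good F → ∀ p k, F (p, e k) = (s k : ℂ) * F (p, k)) →
      ∀ k, ∀ t > T, z (e k) t = (s k : ℂ) * z k t

/-! ## The equation -/

/-- The derivative of `Sn l c k` in the direction `i`. -/
def Sd {N : ℕ} (l : Fin N → ℝ) (c : (Fin N → ℤ) → ℝ) (i : Fin N) (k : Fin N → ℤ)
    (x : Fin N → ℝ) : ℝ :=
  c k * (Real.pi * k i / l i * Real.cos (Real.pi * k i / l i * x i) *
    ∏ j ∈ Finset.univ.erase i, Real.sin (Real.pi * k j / l j * x j))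

/-- The sum of the series. -/
def ser {N : ℕ} (l : Fin N → ℝ) (c : (Fin N → ℤ) → ℝ) (a : (Fin N → ℤ) → ℝ → ℝ) (t : ℝ)
    (x : Fin N → ℝ) : ℝ := ∑' k, a k t * Sn l c k x

/-- SCD: termwise derivatives of the series. Proof: `hasDerivAt_tsum_of_isPreconnected` (for `t`,
on `Ioi T`) and `hasDerivAt_tsum` (for `s ↦ x + s e_i`), `|Sn| ≤ 1`, `|∂_i Sn| ≤ |π k_i/l_i|`,
`|∂_i² Sn| = (π k_i/l_i)² |Sn|`, and `|k_i| ≤ w2 k`, `k_i² ≤ w2 k`. -/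
def ScdStmt : Prop := ∀ (N : ℕ) (l : Fin N → ℝ) (c : (Fin N → ℤ) → ℝ) (T : ℝ)
  (a a' a'' : (Fin N → ℤ) → ℝ → ℝ) (D : (Fin N → ℤ) → ℝ), (∀ i, 0 < l i) → (∀ k, |c k| ≤ 1) →
  (Summable fun k => D k * w2 k) →
  (∀ k, ∀ t > T, |a k t| ≤ D k ∧ |a' k t| ≤ D k ∧ |a'' k t| ≤ D k * w2 k) →
  (∀ k, ∀ t > T, HasDerivAt (a k) (a' k t) t ∧ HasDerivAt (a' k) (a'' k t) t) → ∀ t > T, ∀ x,
  dt (ser l c a) t x = ∑' k, a' k t * Sn l c k x ∧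
  dtt (ser l c a) t x = ∑' k, a'' k t * Sn l c k x ∧
  ∀ i, dx i (ser l c a t) x = ∑' k, a k t * Sd l c i k x ∧
    dxx i (ser l c a t) x = - ∑' k, (Real.pi * k i / l i) ^ 2 * a k t * Sn l c k x

/-- SCC: the series is of class `C²`. Proof: with `HasFDerivAt` for sums
(`hasFDerivAt_tsum_of_isPreconnected` on the open convex set `{T < q.1}`) twice, or by
`contDiffOn` criteria: all derivatives of order at most two are uniformly convergent sums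
of continuous functions. The `k`th term is `a_k(t) c_k ∏ sin(b_i x_i)`, its Fréchet derivatives of
order `0, 1, 2` are bounded by a constant (depending on `l`, `N`) times `D k * w2 k` on
`{T < q.1}`. -/
def SccStmt : Prop := ∀ (N : ℕ) (l : Fin N → ℝ) (c : (Fin N → ℤ) → ℝ) (T : ℝ)
  (a a' a'' : (Fin N → ℤ) → ℝ → ℝ) (D : (Fin N → ℤ) → ℝ), (∀ i, 0 < l i) → (∀ k, |c k| ≤ 1) →
  (Summable fun k => D k * w2 k) →
  (∀ k, ∀ t > T, |a k t| ≤ D k ∧ |a' k t| ≤ D k ∧ |a'' k t| ≤ D k * w2 k) →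
  (∀ k, ∀ t > T, HasDerivAt (a k) (a' k t) t ∧ HasDerivAt (a' k) (a'' k t) t) →
  (∀ k, ContinuousOn (a'' k) (Ioi T)) →
  ContDiffOn ℝ 2 (fun q : ℝ × (Fin N → ℝ) => ser l c a q.1 q.2) {q | T < q.1}

/-- The cube of the series of the family `v`. -/
def Mul {N : ℕ} (l : Fin N → ℝ) (c : (Fin N → ℤ) → ℝ) (v : (Fin N → ℤ) → ℝ) : Prop :=
  ∀ x, (∑' k, v k * Sn l c k x) ^ 3 =
    ∑' k, (T3 (fun q => (v q : ℂ)) (fun q => (v q : ℂ)) (fun q => (v q : ℂ)) k).re * Sn l c k x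

/-- The hypotheses on the solution of the system. -/
structure Sys {N : ℕ} (l : Fin N → ℝ) (c : (Fin N → ℤ) → ℝ) (T : ℝ) (z : (Fin N → ℤ) → ℝ → ℂ)
    (d : (Fin N → ℤ) → ℝ) : Prop where
  hl : ∀ i, 0 < l i
  hc : ∀ k, |c k| ≤ 1
  hT : 1 ≤ T
  hd : Summable fun k => d k * w2 k
  bd : ∀ k, ∀ t > T, ‖z k t‖ ≤ d k * t ^ (-(1 / 2) : ℝ)
  ode : ∀ k, ∀ t > T, HasDerivAt (z k) (rhs (frq l) (fun q => z q t) k) t
  mul : ∀ t > T, Mul l c (fun k => (z k t).re)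
  c1 : |c (fun _ => 1)| = 1
  sym : ∀ k : Fin N → ℤ, (∀ i, k i = 1 ∨ k i = -1) → ∀ t > T,
    (c k : ℂ) * ((∏ i, (k i : ℝ) : ℝ) : ℂ) * z k t = (c (fun _ => 1) : ℂ) * z (fun _ => 1) t

/-- The displacement: `û_k = Im z_k / ω_k`. -/
def dsp {N : ℕ} (l : Fin N → ℝ) (z : (Fin N → ℤ) → ℝ → ℂ) (k : Fin N → ℤ) (t : ℝ) : ℝ :=
  (z k t).im / frq l k

/-- TOR: the solution of the equation. Proof: `a = dsp`, `a' k t = Re z_k` if `k ≠ 0`, `0` if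
`k = 0` (`frq l k > 0` for `k ≠ 0`; `dsp = 0` for `k = 0`), `a'' k t = - ω_k Im z_k - (T3 v v v)_k`
(`k ≠ 0`), `v = Re z`; `T3 v v v` is real. `D = C (d + |T3|)`: bounded by T3A (weight `w2`, which
is submultiplicative), a uniform bound of `T3 v v v` over `t`: `T3 d d d`. SCD, SCC. All `Sn l c k`
with some `k_i = 0` vanish. PDE: `u_tt - Δu = ∑ (-ω_k Im z_k - T3_k + ω_k² Im z_k / ω_k) Sn =
- ∑ T3_k Sn = - (∑ v_k Sn)³ = - u_t³` (`Mul`; `ω_k² = ∑ (π k_i/l_i)²`). On the boundary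
`sin (π k_i / l_i * x_i) = 0` for `x_i = 0` or `l_i`. Continuity of `a''`: sum of continuous
functions, dominated by `T3 d d d`. -/
def TorStmt : Prop := ∀ (N : ℕ) (l : Fin N → ℝ) (c : (Fin N → ℤ) → ℝ) (T : ℝ)
  (z : (Fin N → ℤ) → ℝ → ℂ) (d : (Fin N → ℤ) → ℝ), Sys l c T z d → 1 ≤ N →
  ContDiffOn ℝ 2 (fun q : ℝ × (Fin N → ℝ) => ser l c (dsp l z) q.1 q.2) {q | T < q.1} ∧
  ∀ t > T, ∀ x,
    dtt (ser l c (dsp l z)) t x - ∑ i, dxx i (ser l c (dsp l z) t) x +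
      dt (ser l c (dsp l z)) t x ^ 3 = 0 ∧
    dt (ser l c (dsp l z)) t x = ∑' k, (z k t).re * Sn l c k x ∧
    (∀ i, dx i (ser l c (dsp l z) t) x = ∑' k, dsp l z k t * Sd l c i k x) ∧
    ∀ i, (x i = 0 ∨ x i = l i) → ser l c (dsp l z) t x = 0

/-- ENL: lower bound of the energy. Proof: test functions `s = ∏ sin (π x_j/l_j)` and
`s_i = cos (π x_i/l_i) ∏_{j ≠ i} sin (π x_j/l_j)`; `∫_Box s² = ∫_Box s_i² = ∏ (l_j/2)`;
`∫_Box (∑ (Re z_k) Sn) s = ∑_k (Re z_k) c_k ∏_i ∫_0^{l_i} sin(π k_i x/l_i) sin(π x/l_i) dx =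
∑_{k ∈ {1,-1}^N} (Re z_k) c_k ∏ (k_i l_i/2) = c_1 (Re z_1) ∏ l_i` (by `sym`);
`∫_Box (∑ dsp_k Sd_i) s_i = c_1 (Im z_1/ω_1) (π/l_i) ∏ l_j`. Cauchy-Schwarz:
`∫ f² ≥ (∫ f s)²/∫ s²`. Sum: `(∏ l_j)²/∏(l_j/2) ((Re z_1)² + (Im z_1)² ∑ (π/l_i)²/ω_1²)`, and
`ω_1² = ∑ (π/l_i)²`. Product integrals: `integral_fintype_prod_eq_prod` on `Box l =
univ.pi (Ioo 0 (l i))`; exchange of sum and integral: `hasSum_integral_of_summable_norm`. -/
def EnlStmt : Prop := ∀ (N : ℕ) (l : Fin N → ℝ) (c : (Fin N → ℤ) → ℝ) (T : ℝ)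
  (z : (Fin N → ℤ) → ℝ → ℂ) (d : (Fin N → ℤ) → ℝ), Sys l c T z d → 1 ≤ N → ∀ t > T,
  2 ^ N * (∏ i, l i) * ‖z (fun _ => 1) t‖ ^ 2 ≤
    ∫ x in Box l, ((∑' k, (z k t).re * Sn l c k x) ^ 2 +
      ∑ i, (∑' k, dsp l z k t * Sd l c i k x) ^ 2)

/-- ENU: upper bound of the energy. Proof: `|∑ (Re z_k) Sn| ≤ ∑ ‖z_k‖ ≤ (∑ d_k) t^(-1/2)` and
`|dsp_k Sd_i| ≤ ‖z_k‖ |π k_i/l_i|/ω_k ≤ ‖z_k‖`; the volume of `Box l` is `∏ l_i`. -/
def EnuStmt : Prop := ∀ (N : ℕ) (l : Fin N → ℝ) (c : (Fin N → ℤ) → ℝ) (T : ℝ)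
  (z : (Fin N → ℤ) → ℝ → ℂ) (d : (Fin N → ℤ) → ℝ), Sys l c T z d → ∃ C : ℝ, ∀ t > T,
  ∫ x in Box l, ((∑' k, (z k t).re * Sn l c k x) ^ 2 +
    ∑ i, (∑' k, dsp l z k t * Sd l c i k x) ^ 2) ≤ C * t ^ (-1 : ℝ)

/-- FNL: from the system to the theorem. Proof: `u(t, x) = a^(-1/2) ser l c (dsp l z) (t+T+1) x`;
TOR, ENL, ENU. -/
def FnlStmt : Prop := ∀ (N : ℕ) (l : Fin N → ℝ) (c : (Fin N → ℤ) → ℝ) (T : ℝ)
  (z : (Fin N → ℤ) → ℝ → ℂ) (d : (Fin N → ℤ) → ℝ) (a c0 : ℝ), Sys l c T z d → 1 ≤ N → 0 < a →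
  0 < c0 → (∀ t > T, c0 * t ^ (-(1 / 2) : ℝ) ≤ ‖z (fun _ => 1) t‖) → Rate l a

end

end Pool.Agent.BOX
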