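import Pool.Agent.BOX.DefsN

/-!
# Squad BOX (MP_be01ff_an): boxes of dimension `N ≥ 3` (one class). Statements with proofs.
-/

namespace Pool.Agent.BOX

open Set Filter Topology MeasureTheory

noncomputable section

/-- The lower bound of the divisors for `N ≥ 3`. -/
def Div3 {N : ℕ} (l : Fin N → ℝ) : Prop := ∃ c > 0, ∃ τ : ℕ, ∀ g : G3 N, Odd g.1 →
  (∀ i, Odd (g.2 i)) → g ∉ R3 → c / (1 + (nr3 g : ℝ)) ^ τ ≤ |sg (th3 l) (frq l) g|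

/-- NRM: lower bound of the divisors. Proof: `n = g.1`. If `n < 0`: `|sg| ≥ ω_k ≥ π/l_0 > 0`. If
`n > 0`: `sg (n ω_1 + ω_k) = n² ω_1² - ω_k² = π² ∑ (n² - k_i²)/l_i²` (`ω_1 = frq l 1`), the integers
`n² - k_i²` are not all `0` since `g ∉ R3`, `|n² - k_i²| ≤ nr²`, and `n ω_1 + ω_k ≤ C nr`. On `R3`
the symbol is `0`. -/
def NrmStmt : Prop := ∀ (N : ℕ) (l : Fin N → ℝ), 3 ≤ N → (∀ i, 0 < l i) → DioN l →
  Div3 l ∧ ∀ g ∈ (R3 : Set (G3 N)), sg (th3 l) (frq l) g = 0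

/-- FMN: the trilinear convolution of class functions. Proof: the value at `(n, (n,..,n))` is
`∑_{n_1+n_2+n_3=n} f g h ω^N`, `ω = #{ε ∈ {±1}³ : ∑ ε_j n_j = n} = #{S : ∑_S n_j = 0} =
1 + #{j<k : n_j = -n_k}` (one factor `ω` for every coordinate: `Finset.prod_univ_sum`), and
`ω^N = 1 + (2^N-1) #pairs + (3^N - 2^{N+1} + 1) [#pairs = 2]`. -/
def FmnStmt : Prop := ∀ (N : ℕ) (f g h : ℤ → ℂ), 3 ≤ N → Oddf f → Oddf g → Oddf h →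
  (Summable fun n => ‖f n‖) → (Summable fun n => ‖g n‖) → (Summable fun n => ‖h n‖) →
  ∀ n, Odd n → T3 (cl3 f : G3 N → ℂ) (cl3 g) (cl3 h) (n, fun _ => n) =
    K1 (2 ^ N - 1) (3 ^ N - 2 ^ (N + 1) + 1) f g h n

/-- PRN: the profile for `N ≥ 3`. Proof: as PRT with `c = cN N ≥ 36` instead of `18`,
`Φ(g)_n = [δ_{n3} + 3(g_{n-2}+g_{n+2}) + 3(e*g*g)_n + (g*g*g)_n + c g_n³ - s(g) g_n]/(c-3)`, in the
ball `‖g‖ ≤ 6/100`, `r = 101/100`: `‖Φ(g)‖ ≤ [1.04 + 6.1‖g‖ + 12.3‖g‖² + 4‖g‖³ + c‖g‖³ +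
(3‖g‖+12.3‖g‖²+4‖g‖³)‖g‖]/(c-3) ≤ 6/100`, Lipschitz constant at most `1/2`. `ν = c + 3 + s(g) +
3(2^N-1) ∑ w² ≥ c + 2 + 6(2^N-1)` because `|s(g)| ≤ 1` and `∑ w² ≥ 2`. -/
def PrnStmt : Prop := ∀ N : ℕ, 3 ≤ N → ∃ (w : ℤ → ℝ) (ν r : ℝ), Prf3 N w ν r

/-- INN: the linearised operator for `N ≥ 3`. Proof: as INT with one class, `A = 2^N - 1 ≥ 7`,
`C = 3^N - 2^{N+1} + 1 ≥ 12`: `3 K1 (w,w,ẑ) = 3 T3 w w ẑ + 3A(m ẑ_n + 2 w_n pr w ẑ) +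
3C(2 w_n² ẑ_n + w_n² ẑ_{-n})`. Main part: `n ≥ 3`: `6 + 6A`; `n = 1`: imaginary `ν0 = 3+6A+3C`,
real `3ν0` (replaced by the unknown `β`, gauge `Re z_1 = 0`). Rest: `6.1 + 3.3 + 3A/32 + 6A·0.51 +
9C/64`. Divisors: `μ - 6 - 6A ≥ 12A + 9C`, `μ - ν0 ≥ 3 + 12A + 6C`
(`μ ≥ 3ν ≥ 3ν0 - 3`). Constant at most `2·0.24`. -/
def InnStmt : Prop := ∀ (N : ℕ) (w : ℤ → ℝ) (ν r : ℝ), 3 ≤ N → Prf3 N w ν r → ∀ μ : ℝ,
  3 * ν ≤ μ → ∀ F : ℤ → ℂ, Exd F → ∃ (z : ℤ → ℂ) (β : ℝ), Exd z ∧ Oddf z ∧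
    (∀ n ≤ 0, z n = 0) ∧ ∀ n, 0 < n → Odd n →
      (μ : ℂ) * z n - 3 * K1 (2 ^ N - 1) (3 ^ N - 2 ^ (N + 1) + 1) (fun q => (w q : ℂ))
        (fun q => (w q : ℂ)) (hat z) n = F n - (β : ℂ) * w n

/-- GDN: the class `Good3` is stable. Proof: as GDT. -/
def GdnStmt : Prop := ∀ (N : ℕ) (l : Fin N → ℝ), 3 ≤ N → (∀ i, 0 < l i) → Div3 l →
  (∀ F G : G3 N → ℂ, Good3 F → Good3 G → Good3 (fun g => F g + G g)) ∧
  (∀ (c : ℝ) (F : G3 N → ℂ), Good3 F → Good3 (fun g => (c : ℂ) * F g)) ∧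
  (∀ F G H : G3 N → ℂ, Good3 F → Good3 G → Good3 H → Good3 (T3 (Vp F) (Vp G) (Vp H))) ∧
  (∀ F : G3 N → ℂ, Good3 F →
    Good3 (R3ᶜ.indicator fun g => F g / (Complex.I * (sg (th3 l) (frq l) g : ℂ)))) ∧
  (∀ F : G3 N → ℂ, Good3 F → Summable fun g => ‖F g‖) ∧
  (∀ F : G3 N → ℂ, Good3 F → ∀ g ∉ R3, sg (th3 l) (frq l) g = 0 → F g = 0) ∧
  ∀ F : G3 N → ℂ, Good3 F → Sm (fun g => (1 + |th3 l g.1|) * w2 g.2) F

/-- CLN: the class functions are in the class. Proof: as CLT (there are `2^N` indices for each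
`n`, `nr3 = (N+1)|n|`). -/
def ClnStmt : Prop := ∀ N : ℕ, 3 ≤ N → (∀ f : ℤ → ℂ, Exd f → Oddf f →
    Good3 (cl3 (pos f) : G3 N → ℂ) ∧ (∀ g ∉ (R3 : Set (G3 N)), cl3 (pos f) g = 0) ∧
    Vp (fun g : G3 N => 2 * cl3 (pos f) g) = cl3 (hat f)) ∧
  ∀ F : G3 N → ℂ, Good3 F → Exd (fun n => F (n, fun _ => n)) ∧
    ∀ g ∈ (R3 : Set (G3 N)), F g = F (g.1, fun _ => g.1)

/-- FRN: the frame for `N ≥ 3`. Proof: as FRT with one class: `W0 = 2 cl3 (pos w)`, constant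
`ν/2`. -/
def FrnStmt : Prop := ∀ (N : ℕ) (l : Fin N → ℝ), 3 ≤ N → (∀ i, 0 < l i) → DioN l →
  ∃ (W0 : G3 N → ℂ) (ν : ℝ), Frame (th3 l) (frq l) R3 Good3 W0 ν ∧
    (∀ F : G3 N → ℂ, Good3 F → Sm (fun g => (1 + |th3 l g.1|) * w2 g.2) F) ∧
    W0 (1, fun _ => 1) = 2 ∧ ∀ p : ℤ, p ≠ 1 → W0 (p, fun _ => 1) = 0

/-- MUN: the cube of the series for `N ≥ 3`. Proof: `y_i = π x_i/l_i - π/2`,
`χ_k = e^{i ∑ k_i y_i}`; for a family even under all flips `∑ v_k χ_k = ∑ v_k ∏ cos(k_i y_i)`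
(average over the group of flips, `2^N` elements: or induction over the coordinates), and
`cos(k_i y_i) = sin(π k_i/2) sin(π k_i x_i/l_i)` for odd `k_i`. EVM and T3S; T3 is again even and
supported at the odd `k` (a sum of three odd integers is odd). -/
def MunStmt : Prop := ∀ (N : ℕ) (l : Fin N → ℝ) (v : (Fin N → ℤ) → ℝ), (∀ i, 0 < l i) →
  (Summable fun k => |v k|) → (∀ i : Fin N, ∀ k, v (flp i k) = v k) →
  (∀ k, v k ≠ 0 → ∀ i, Odd (k i)) → Mul l chi v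

/-- DIN: almost every box satisfies the Diophantine condition. Proof: for `m ≠ 0` and `ε > 0` the
set of `a ∈ [0,R]^N` with `|∑ m_i a_i| < ε` has measure at most `2ε R^(N-1)` (Fubini in a variable
with `m_i ≠ 0`). `ε = H^(-N-1)`, `H = 1 + ∑ |m_i|`, Borel-Cantelli; exact relations `∑ m_i a_i = 0`:
null sets. Then `a_i = 1/l_i²`: image of a null set under the differentiable map `a ↦ (a_i^(-1/2))`
of `(0,∞)^N`. -/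
def DinStmt : Prop := ∀ N : ℕ, 1 ≤ N → ∀ᵐ l : Fin N → ℝ, (∀ i, 0 < l i) → DioN l

/-- MAN: boxes of dimension `N ≥ 3`. Proof: FRN, SEQ, FNL with `c = chi`: symmetries `e = flp i`,
`s = 1`, and `e = id`, `s_k = - (-1)^{k_i}` (so `z k = 0` if some `k_i` is even); MUN; `sym`:
`chi k ∏ k_i = 1` for `k_i = ±1`; lower bound as in MAT. -/
def ManStmt : Prop := ∀ (N : ℕ) (l : Fin N → ℝ) (a : ℝ), 3 ≤ N → (∀ i, 0 < l i) → 0 < a →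
  DioN l → Rate l a

end

end Pool.Agent.BOX
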