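import Pool.Agent.BOX.DefsN

/-!
# Squad BOX (MP_be01ff_an): rectangles (`N = 2`, two classes). Statements with complete proofs.
-/

namespace Pool.Agent.BOX

open Set Filter Topology MeasureTheory

noncomputable section

/-- The lower bound of the divisors for `N = 2`. -/
def Div2 (l : Fin 2 → ℝ) : Prop := ∃ c > 0, ∃ τ : ℕ, ∀ g : G2, Par2 g → g ∉ R2 → g.2 1 ≠ 0 →
  c / (1 + (nr2 g : ℝ)) ^ τ ≤ |sg (th2 l) (frq l) g|

/-- NRT: lower bound of the divisors. Proof. `a = (π/l_0)²`, `b = (π/l_1)²`, `s = b/a = (l_0/l_1)²`,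
`ω_1² = a + b`, `ω_2² = a + 4b`, `ω_k² = a k_0² + b k_1²`, `g = ((p, q), k)`, `X = p²(a+b)`,
`Y = q²(a+4b)`, `Z = a k_0² + b k_1²`. The product of
`sg = pω_1 + qω_2 - ω_k`, `pω_1 + qω_2 + ω_k`, `pω_1 - qω_2 - ω_k`, `pω_1 - qω_2 + ω_k` is
`Q = X² + Y² + Z² - 2XY - 2XZ - 2YZ = a² (m_0 + m_1 s + m_2 s²)` with
`m_0 = p⁴+q⁴+k_0⁴-2p²q²-2p²k_0²-2q²k_0²`, `m_2 = p⁴+16q⁴+k_1⁴-8p²q²-2p²k_1²-8q²k_1²`,
`m_1 = 2p⁴+8q⁴+2k_0²k_1²-10p²q²-2p²(k_0²+k_1²)-2q²(k_1²+4k_0²)`; `|m_i| ≤ 100 (1+nr)^4`, and the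
last three factors are at most `C (1 + nr)` in absolute value. If `(m_0,m_1,m_2) ≠ 0` the claim
follows from `Dio2 s`. If all are `0`: `m_0 = 0` means `k_0² = (p+q)²` or `(p-q)²`
(`m_0 = (k_0²-(p+q)²)(k_0²-(p-q)²)`), `m_2 = (k_1²-(p+2q)²)(k_1²-(p-2q)²)`; with `k_0 = ±(p+ηq)`,
`k_1 = ±(p+2η'q)`, `m_1 = -4p²q²` (`η = η'`) or `-36p²q²` (`η = -η'`), so `pq = 0`. If `q = 0`: `k_0² = k_1² = p²`;
`p > 0` would give `g ∈ R2` (`p` odd by `Par2`), so `p ≤ 0` and `sg = -2|p|ω_1`, `p ≠ 0` (odd). If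
`p = 0`: `k_0² = q²`, `k_1² = 4q²`; `q > 0` would give `g ∈ R2`, so `sg = -2|q|ω_2`. On `R2` the
symbol is `0`: direct. -/
def NrtStmt : Prop := ∀ l : Fin 2 → ℝ, (∀ i, 0 < l i) → Dio2 ((l 0 / l 1) ^ 2) →
  Div2 l ∧ ∀ g ∈ R2, sg (th2 l) (frq l) g = 0

/-- FMT: the trilinear convolution of class functions. Proof: write the sum over the six indices
`(n_j, ε_j, ε'_j)` of each factor (first class `((n,0),(εn, ε'n))` with the sign `εε'`, second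
class `((0,n),(εn, 2ε'n))`). Value at `((n,0),(n,n))`: either all three factors are of the first
class, `n_1+n_2+n_3 = n`, and the sign sums over `ε` and over `ε'` are both
`ω = ∑_{S ⊆ {1,2,3}, ∑_S n_j = 0} (-1)^{|S|} = 1 + #{j<k : n_j = -n_k}` (`n_j` odd: `|S| = 0` or `2`),
and `ω² = 1 + 3#pairs + 2[#pairs = 2]`, `#pairs = 2` exactly for the permutations `(n,-n,n)`,
`(n,n,-n)`, `(-n,n,n)`; or one factor is of the first class (`n_1 = n`) and two of the second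
(`q, -q`): first coordinate: `ε = 1` and `ε_2 = ε_3` (2 ways) or `ε = -1`, `|q| = |n|` (1 way),
second coordinate: 2 ways (`2q = ±n` is impossible), all signs `+`: `2(2 + [|q| = |n|])`. Value at
`((0,n),(n,2n))`: the same with the classes exchanged (second coordinate `q = ±2n` impossible,
`q` odd). Checked by computer. -/
def FmtStmt : Prop := ∀ f1 f2 g1 g2 h1 h2 : ℤ → ℂ, Oddf f1 → Oddf f2 → Oddf g1 → Oddf g2 →
  Oddf h1 → Oddf h2 → (Summable fun n => ‖f1 n‖) → (Summable fun n => ‖f2 n‖) →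
  (Summable fun n => ‖g1 n‖) → (Summable fun n => ‖g2 n‖) → (Summable fun n => ‖h1 n‖) →
  (Summable fun n => ‖h2 n‖) → ∀ n, Odd n →
  T3 (cl2 f1 f2) (cl2 g1 g2) (cl2 h1 h2) ((n, 0), ![n, n]) =
    K1 3 2 f1 g1 h1 n + X1 f1 f2 g1 g2 h1 h2 n ∧
  T3 (cl2 f1 f2) (cl2 g1 g2) (cl2 h1 h2) ((0, n), ![n, 2 * n]) =
    K1 3 2 f2 g2 h2 n + X1 f2 f1 g2 g1 h2 h1 n

/-- PRT: the profile for `N = 2`. Proof. `r = 101/100`. Unknown `g_n = w_n` (`n ≥ 3` odd, `w` even,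
`w_1 = 1`), norm `‖g‖ = ∑_{n ≥ 3} |g_n| r^n`. With `e = δ_1 + δ_{-1}` and `*` the convolution,
`T3 www n = δ_{n3} + 3(g_{n-2}+g_{n+2}) + 6 g_n + 3 (e*g*g)_n + (g*g*g)_n` (`n ≥ 3`),
`T3 www 1 = 3 + 3g_3 + 3(e*g*g)_1 + (g*g*g)_1 =: 3 + s(g)`; with `ν = 21 + s(g) + 21 ∑ w²` the
equation for `n = 1` holds and for `n ≥ 3` it is `g = Φ(g)`,
`Φ(g)_n = [δ_{n3} + 3(g_{n-2}+g_{n+2}) + 3(e*g*g)_n + (g*g*g)_n + 18 g_n³ - s(g) g_n]/15`
(`g_1 := 0`). Ball of radius `1/50` around `(g_3, g_5, g_7) = (7/100, 16/1000, 5/1000)`: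
residual `≤ 3/1000` (finite computation), Lipschitz constant `≤ 71/100`: with `G = 12/100 ≥ ‖g‖`,
`[3(r²+1) + 24 r G + 12 G² + 54·(9/100)² + (27/100+12rG²+4G³) + (3+24rG+12G²)G]/15`. Total:
two sided norm of `w - e` at most `2·(115/1000) ≤ 1/4` (one sided: `7/100 r³ + 16/1000 r⁵ + 5/1000 r⁷ +
1/50`); `|s(g)| ≤ 1/2` gives `ν ≥ 62`. For `n < 0` by evenness. -/
def PrtStmt : Prop := ∃ (w : ℤ → ℝ) (ν r : ℝ), Prf2 w ν r

/-- INT: the linearised operator for `N = 2`. Proof. `ẑ = hat z`. `3 (K1 + X1)(w,w,ẑ)` is, for the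
first class, `Q_n = 3 T3 w w ẑ1 n + 21 m ẑ1_n + 18 w_n pr w ẑ1 + 24 w_n pr w ẑ2 + 24 w_n² ẑ1_n +
6 w_n² ẑ1_{-n} + 12 w_n² (ẑ2_n + ẑ2_{-n})`, `m = ∑ w²`; second class: exchange. Write `w = e + g`,
`e = δ_1+δ_{-1}`, two sided norm of `g` at most `1/4` (weight `s^|n|`, `1 < s ≤ min(r, 101/100)`, and
`s` at most the radii of `F1, F2`). Main part `D`: `n ≥ 3`: `48 z_n`; `n = 1`: imaginary parts `63`,
real parts `117 x_1 + 72 x_2`, `72 x_1 + 117 x_2`. Rest, in the norm `∑_c ∑_{n≥1} |z_{c,n}| s^n`: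
`3(z_{n-2}+z_{n+2})` (for `n = 1`: `3 z_3`) `≤ 6.1`; `3(2 e*g*ẑ + g*g*ẑ) ≤ 3.3`; `21(m-2) ≤ 0.7`;
`(18+24)(w_n pr w ẑ - e_n pr e ẑ) ≤ 21.2`; the squares for `n ≥ 3`: `≤ 0.9`; total `≤ 32.2`. Gauge
`x_1 + x_2 = 0` (`x_c = Re z_{c,1}`); unknowns: `z_{c,n}` (`n ≥ 3`), `Im z_{c,1}`, `x_1 = -x_2`, `β`.
`β` is given by the sum of the real parts of the two equations `n = 1`
(`β = ½ ∑_c Re(F_{c,1} + rest)`), it does not occur in their difference nor in the imaginary parts;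
in the rows `n ≥ 3` it contributes `β g_n` (at most `½·32.2·¼`). Divisors: `μ - 48 ≥ 138`,
`μ - 63 ≥ 123`, `μ - 45 ≥ 141` (`μ ≥ 186`). Contraction constant at most `2·(32.2+4.1)/123 < 0.6`
(the factor 2 for real and imaginary parts). Fixed point in the complete space of pairs of
families on the positive odd integers with the weight `s^n`. -/
def IntStmt : Prop := ∀ (w : ℤ → ℝ) (ν r : ℝ), Prf2 w ν r → ∀ μ : ℝ, 3 * ν ≤ μ →
  ∀ F1 F2 : ℤ → ℂ, Exd F1 → Exd F2 → ∃ (z1 z2 : ℤ → ℂ) (β : ℝ), Exd z1 ∧ Exd z2 ∧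
    Oddf z1 ∧ Oddf z2 ∧ (∀ n ≤ 0, z1 n = 0 ∧ z2 n = 0) ∧ ∀ n, 0 < n → Odd n →
      (μ : ℂ) * z1 n - 3 * (K1 3 2 (fun q => (w q : ℂ)) (fun q => (w q : ℂ)) (hat z1) n +
        X1 (fun q => (w q : ℂ)) (fun q => (w q : ℂ)) (fun q => (w q : ℂ)) (fun q => (w q : ℂ))
          (hat z1) (hat z2) n) = F1 n - (β : ℂ) * w n ∧
      (μ : ℂ) * z2 n - 3 * (K1 3 2 (fun q => (w q : ℂ)) (fun q => (w q : ℂ)) (hat z2) n +
        X1 (fun q => (w q : ℂ)) (fun q => (w q : ℂ)) (fun q => (w q : ℂ)) (fun q => (w q : ℂ))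
          (hat z2) (hat z1) n) = F2 n - (β : ℂ) * w n

/-- GDT: the class `Good2` is stable. Proof: weights `r^{nr2}` (`nr2 (g+h) ≤ nr2 g + nr2 h`), T3A;
`‖Vp F‖`: `nr2 (-p, k) = nr2 (p, k)`; take the smallest of the radii. Flips: T3S (last point, with
`e = id × flp i`) and `(-1)³ = -1`; `Vp` commutes with the flips. Parity: a sum of three indices
with `Par2` satisfies `Par2`; `Par2 (-p, k) ↔ Par2 (p, k)`. Division: `Div2` (if
`F g ≠ 0` then `Par2 g`, and `g.2 1 ≠ 0` because of the oddness under `flp 1`) and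
`(1+n)^τ ≤ C_ρ ρ^n`; `R2`, `sg` are invariant under the flips. `R2` restriction: clear. `nz`:
by `Div2`. Last point: `(1 + |th2 p|) w2 k ≤ C ρ^{nr2}`. -/
def GdtStmt : Prop := ∀ l : Fin 2 → ℝ, (∀ i, 0 < l i) → Div2 l →
  (∀ F G, Good2 F → Good2 G → Good2 (fun g => F g + G g)) ∧
  (∀ (c : ℝ) F, Good2 F → Good2 (fun g => (c : ℂ) * F g)) ∧
  (∀ F G H, Good2 F → Good2 G → Good2 H → Good2 (T3 (Vp F) (Vp G) (Vp H))) ∧
  (∀ F, Good2 F → Good2 (R2ᶜ.indicator fun g => F g / (Complex.I * (sg (th2 l) (frq l) g : ℂ)))) ∧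
  (∀ F, Good2 F → Summable fun g => ‖F g‖) ∧
  (∀ F, Good2 F → ∀ g ∉ R2, sg (th2 l) (frq l) g = 0 → F g = 0) ∧
  ∀ F, Good2 F → Sm (fun g => (1 + |th2 l g.1|) * w2 g.2) F

/-- CLT: the class functions are in the class. Proof: `cl2 (pos f1) (pos f2)` vanishes outside
`R2`; summability: four indices `g` for each `n` and class, `nr2 ≤ 4|n|`; take the fourth root of
the radius. `Vp`: for `n > 0` the index `(-n, ..)` carries `pos f = 0`. Any `Good2` family which is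
`0` off `R2` has this form: `f1 n = F ((n,0), (n,n))`, `f2 n = F ((0,n), (n,2n))` (flips). For a
`Good2` family `F`, at `g ∈ R2`, `F g = sign(g.2 0 * g.2 1) F (representative)`. -/
def CltStmt : Prop := (∀ f1 f2 : ℤ → ℂ, Exd f1 → Exd f2 → Oddf f1 → Oddf f2 →
    Good2 (cl2 (pos f1) (pos f2)) ∧ (∀ g ∉ R2, cl2 (pos f1) (pos f2) g = 0) ∧
    Vp (fun g => 2 * cl2 (pos f1) (pos f2) g) = cl2 (hat f1) (hat f2)) ∧
  ∀ F, Good2 F → Exd (fun n => F ((n, 0), ![n, n])) ∧ Exd (fun n => F ((0, n), ![n, 2 * n])) ∧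
    ∀ g ∈ R2, (g.1.2 = 0 → F g = ((Int.sign (g.2 0 * g.2 1) : ℤ) : ℂ) *
        F ((g.1.1, 0), ![g.1.1, g.1.1])) ∧
      (g.1.1 = 0 → F g = ((Int.sign (g.2 0 * g.2 1) : ℤ) : ℂ) *
        F ((0, g.1.2), ![g.1.2, 2 * g.1.2]))

/-- FRT: the frame for `N = 2`. Proof: `W0 = 2 cl2 (pos w) (pos w)` (up to the coercion),
`Vp W0 = cl2 w w` (CLT, `hat w = w`), frame constant `ν/2`. `prof`: FMT with
`K1 3 2 w w w n + X1 .. n = T3 w w w n + 21 m w_n + 18 w_n³ = ν w_n`, and `W0 = 2 w_n`, so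
`T3 = (ν/2) W0`; other points of `R2` by the flips. `inv`: for `F` take
`F1 n = F ((n,0),(n,n))`, `F2`, INT with `2μ ≥ 3ν` gives `z1, z2, β'`; `Z = 2 cl2 (pos z1) (pos z2)`,
`Vp Z = cl2 (hat z1) (hat z2)`, `β = β'/2`: `μ Z - 3 T3 = 2μ z - 3 (K1 + X1) = F - β' w = F - β W0`. -/
def FrtStmt : Prop := ∀ l : Fin 2 → ℝ, (∀ i, 0 < l i) → Dio2 ((l 0 / l 1) ^ 2) →
  ∃ (W0 : G2 → ℂ) (ν : ℝ), Frame (th2 l) (frq l) R2 Good2 W0 ν ∧
    (∀ F, Good2 F → Sm (fun g => (1 + |th2 l g.1|) * w2 g.2) F) ∧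
    W0 ((1, 0), ![1, 1]) = 2 ∧ ∀ p : ℤ × ℤ, p ≠ (1, 0) → W0 (p, ![1, 1]) = 0

/-- MUT: the cube of the series for `N = 2`. Proof: `Sn l (-1) k x = - sin(y_0 k_0) sin(y_1 k_1)`,
`y_i = π x_i/l_i`. `χ_k = e^{i(k_0 y_0 + k_1 y_1)}` is multiplicative, EVM gives
`(∑ v_k χ_k)³ = ∑ T3_k χ_k`. For a family odd under `flp 0` and `flp 1`,
`∑ v_k χ_k = ∑ v_k (- sin(k_0y_0) sin(k_1y_1))` (average over the four flips), and T3 is again odd
(T3S). All is real. -/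
def MutStmt : Prop := ∀ (l : Fin 2 → ℝ) (v : (Fin 2 → ℤ) → ℝ), (∀ i, 0 < l i) →
  (Summable fun k => |v k|) → (∀ i : Fin 2, ∀ k, v (flp i k) = - v k) → Mul l (fun _ => -1) v

/-- DIT: almost every `s` satisfies the Diophantine condition. Proof: for a polynomial
`P = m_0 + m_1 s + m_2 s²` with integer coefficients, not all `0`, and `0 < ε < 1`, the set of
`s ∈ [-R, R]` with `|P s| < ε` has measure at most `C_R sqrt ε`: if `m_2 ≠ 0` it is contained in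
the union of two intervals of length `2 sqrt(ε)` (complete the square: `|(s - c)² - D| < ε` with
`|m_2| ≥ 1`: if `D ≤ 0`.. `|s-c| < sqrt ε` or, for `D > 0`, `||s-c| - sqrt D| (|s-c| + sqrt D) < ε`
gives `||s-c| - sqrt D| < sqrt ε`); if `m_2 = 0 ≠ m_1` length at most `2ε`; constants: empty. With
`ε = H^(-10)`, `H = 1+|m_0|+|m_1|+|m_2|`: `∑_m H^(-5) < ∞` (three dimensions), Borel-Cantelli
(`measure_limsup_cofinite_eq_zero` or `ae_eventually_notMem`): for a.e. `s` only finitely many `m`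
violate, and `P s ≠ 0` for a.e. `s` (countably many polynomials with finitely many roots): shrink
`c`. Second point: the set of bad `l_1 > 0` is contained in the image of the null set of bad
`s > 0` under `s ↦ l_0 / sqrt s`, differentiable on `(0, ∞)`
(`addHaar_image_eq_zero_of_differentiableOn_of_addHaar_eq_zero`). -/
def DitStmt : Prop := (∀ᵐ s : ℝ, Dio2 s) ∧
  ∀ l0 : ℝ, 0 < l0 → ∀ᵐ l1 : ℝ, 0 < l1 → Dio2 ((l0 / l1) ^ 2)

/-- MAT: rectangles. Proof: FRT, SEQ (`w = w2`, a weight), then FNL with `c = -1`: symmetries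
`e = flp i`, `s = -1`; `MUT`; `sym`: `z_k = k_0 k_1 z_1` for `k_i = ±1`; lower bound:
`ev W0 t (1,1) = 2 e^{iω_1 t}`, so `‖z_1‖ ≥ 2 A - C t^(-3/2) ≥ c0 t^(-1/2)` for large `t`. -/
def MatStmt : Prop := ∀ (l : Fin 2 → ℝ) (a : ℝ), (∀ i, 0 < l i) → 0 < a →
  Dio2 ((l 0 / l 1) ^ 2) → Rate l a

end

end Pool.Agent.BOX
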